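import Pool.Agent.TH771.CK.LeafC
import Pool.Agent.H673R2.OneTT.Sep4

/-!
# The probability that an algorithm is right at all tests
-/

set_option autoImplicit false

namespace Pool.Agent.TH771.CK

open MeasureTheory Pool.Agent.NPC Pool.Agent.H628R3.RO Pool.Agent.H673R2.OneOne
open Pool.Agent.H673R2.OneTT

variable {M : Alg} {l n t j : ℕ}

theorem ext_length (hln : l ≤ n) (A : Oracle) : ∀ y ∈ (E M l n).qs A,
    y.length ≤ 3 * (qb M).eval n + 2 + n := by
  intro y hy
  rcases Finset.mem_union.1 hy with hy | hy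
  · rcases Finset.mem_union.1 hy with hy | hy
    · have := allRun_length (length_tests hln) A y hy
      omega
    · obtain ⟨x, hx, hy⟩ := Finset.mem_biUnion.1 hy
      have h1 := allRun_length (length_tests hln) A x hx
      obtain ⟨κ, h2, h3⟩ := mem_spotsOf hy
      have h4 := (length_of_mem_spots h3).2
      obtain ⟨i, -, rfl⟩ := M2.mem_spots.1 h2
      rw [length_pos] at h1
      have h5 : mm κ ≤ κ.2.length := Nat.div_le_self _ _
      omega
  · unfold addS at hy
    split_ifs at hy with h
    · rw [List.mem_toFinset, mem_strs] at hy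
      omega
    · exact absurd hy (Finset.notMem_empty _)

theorem loc_many (hln : l ≤ n) (t : ℕ) :
    Loc {x | x.length ≤ 3 * (qb M).eval n + 10}
      (Many (allRun M (tests l n)) (univC l ((qb M).eval n)) t) := by
  intro A A' h
  have h1 := ((allRun M (tests l n)).loc A A' fun x hx => (h x (by
    have := allRun_length (length_tests hln) A x hx
    show x.length ≤ _
    omega)).symm).2
  unfold Many
  simp only [Set.mem_ofPred_eq, h1]
  refine exists_congr fun K => and_congr_right fun hK => and_congr_right fun _ =>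
    forall₂_congr fun κ hκ => and_congr_right fun _ => ?_
  rw [M2.hit_iff, M2.hit_iff]
  refine forall₂_congr fun x hx => ?_
  have h2 := hK hκ
  unfold univC at h2
  rw [Finset.mem_filter, Finset.mem_product, List.mem_toFinset, mem_strs] at h2
  have h3 := (length_of_mem_spots hx).2
  have h4 : mm κ ≤ κ.2.length := Nat.div_le_self _ _
  have h5 : κ.1 ≤ 6 := by
    have := h2.1.1
    simp only [Finset.mem_insert, Finset.mem_singleton] at this
    omega
  rw [h x (by show x.length ≤ _; omega)]

/-- a bound for the length of the strings on which `WorkA` depends -/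
noncomputable def PW (M : Alg) : Polynomial ℕ :=
  3 * qb M + 10 + Polynomial.X + bK.comp (M.out_length.choose) + (3 * Polynomial.X + 7)

theorem PW_eval (M : Alg) (n : ℕ) : (PW M).eval n =
    3 * (qb M).eval n + 10 + n + bK.eval (M.out_length.choose.eval n) + (3 * n + 7) := by
  unfold PW
  simp only [Polynomial.eval_add, Polynomial.eval_mul, Polynomial.eval_comp, Polynomial.eval_X,
    Polynomial.eval_ofNat]

theorem loc_workA (hln : l ≤ n) : Loc {x | x.length ≤ (PW M).eval n} (WorkA M (tests l n)) := by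
  intro A A' h
  have hlen := length_tests hln
  rw [PW_eval] at h
  unfold WorkA
  simp only [Set.mem_ofPred_eq]
  refine forall₂_congr fun x hx => ?_
  have h1 := ((QA.out M x).loc A A' fun y hy => (h y (by
    have := qb_spec M _ _ y hy
    rw [hlen x hx] at this
    show y.length ≤ _
    omega)).symm).1
  rw [QA.out_val, QA.out_val] at h1
  rw [h1]
  refine exists_congr fun z => and_congr_right fun hz => ?_
  have h2 := M.out_length.choose_spec A _ _ hz
  rw [hlen x hx] at h2
  have h3 : x ∈ Hs 5 A ↔ x ∈ Hs 5 A' := by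
    apply hs_congr
    intro y hy
    rw [hlen x hx] at hy
    exact h y (by show y.length ≤ _; omega)
  have h4 : z ∈ DS A ↔ z ∈ DS A' := by
    apply dS_congr
    intro y hy
    have h5 := eval_mono bK h2
    exact h y (by show y.length ≤ _; omega)
  rw [h3, h4]

/-- **The probability that the algorithm is right at all tests.** -/
theorem work_prob (hj : 3 ≤ j) (hl : l = 4 * j) (hln : 8 * l ≤ n) (hb : bK.eval (8 * l + 3) ≤ n)
    (hD : 2 * (2 ^ l * M.p.eval n) ≤ 2 ^ (8 * l)) :
    prob (WorkA M (tests l n)) ≤ 3 * (15 / 16) ^ 2 ^ (j - 1) := by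
  have hln' : l ≤ n := by omega
  have hcard : ∀ A, ((allRun M (tests l n)).qs A).card ≤ 2 ^ l * M.p.eval n := by
    intro A
    have := allRun_card (M := M) (length_tests hln') A
    rwa [card_tests] at this
  have hpow : 2 ^ (j - 1) + 2 ^ (j - 1) ≤ 2 ^ j := by
    have : 2 ^ j = 2 ^ (j - 1) * 2 := by rw [← pow_succ]; congr 1; omega
    omega
  set Y := Many (allRun M (tests l n)) (univC l ((qb M).eval n)) (2 ^ (j - 1)) with hY
  have hprob1 : prob (Set.univ : Set Oracle) ≤ 1 := by
    haveI : IsProbabilityMeasure randomOracle := isProbabilityMeasure_randomOracle_aux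
    unfold prob
    simp
  have h1 := leaf_le (F := E M l n) (ext_length hln') (Z := WorkA M (tests l n))
    (Y := Set.univ) (Y' := Y)
    (measurableSet_of_loc (finite_short' _) (loc_workA hln')) MeasurableSet.univ
    (measurableSet_of_loc (finite_short' _) (loc_many hln' _))
    (2 * (15 / 16) ^ 2 ^ (j - 1)) (fun A₀ => ?_)
  · have h2 := prob_many (allRun M (tests l n)) hcard (allRun_length (length_tests hln'))
      (U := univC l ((qb M).eval n)) (r := 8 * l)
      (fun κ hκ => by
        unfold univC at hκ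
        exact (Finset.mem_filter.1 hκ).2) (2 ^ (j - 1))
    have h3 : (((2 ^ l * M.p.eval n : ℕ) : ℝ)) ^ 2 ^ (j - 1) * (1 / 2) ^ (8 * l * 2 ^ (j - 1)) ≤
        (15 / 16) ^ 2 ^ (j - 1) := by
      rw [pow_mul, ← mul_pow]
      apply pow_le_pow_left₀ (by positivity)
      have h4 : (2 : ℝ) * ((2 ^ l * M.p.eval n : ℕ) : ℝ) ≤ 2 ^ (8 * l) := by exact_mod_cast hD
      have h5 : (1 / 2 : ℝ) ^ (8 * l) * 2 ^ (8 * l) = 1 := by
        rw [← mul_pow]
        norm_num
      have h6 := mul_le_mul_of_nonneg_left h4 (show (0 : ℝ) ≤ (1 / 2) ^ (8 * l) by positivity)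
      rw [h5] at h6
      linarith
    have h7 : 2 * (15 / 16 : ℝ) ^ 2 ^ (j - 1) * prob (Set.univ : Set Oracle) ≤
        2 * (15 / 16) ^ 2 ^ (j - 1) * 1 :=
      mul_le_mul_of_nonneg_left hprob1 (by positivity)
    linarith
  · rw [Set.univ_inter]
    by_cases hA : A₀ ∈ Y
    · have h2 : Leaf (E M l n) A₀ ⊆ Y := by
        intro A hL
        obtain ⟨K, hK, hKc, hKκ⟩ := hA
        obtain ⟨-, g2, g3, -⟩ := ext_leaf hL
        refine ⟨K, hK, hKc, fun κ hκ => ?_⟩
        rw [g2]
        exact ⟨(hKκ κ hκ).1, (g3 κ (hKκ κ hκ).1).2 (hKκ κ hκ).2⟩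
      have h3 : prob (WorkA M (tests l n) ∩ Leaf (E M l n) A₀) ≤
          prob (Y ∩ Leaf (E M l n) A₀) :=
        M2.prob_mono fun A hA => ⟨h2 hA.2, hA.2⟩
      have h4 : 0 ≤ 2 * (15 / 16 : ℝ) ^ 2 ^ (j - 1) * prob (Leaf (E M l n) A₀) :=
        mul_nonneg (by positivity) (M2.prob_nonneg _)
      linarith
    · have h2 := leaf_bound (K := 2 ^ (j - 1)) hj hl hln hb ((Nat.mul_le_mul_left 2
        (hcard A₀)).trans hD) hpow hA
      have h3 := M2.prob_nonneg (Y ∩ Leaf (E M l n) A₀)
      linarith

end Pool.Agent.TH771.CK
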