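import Pool.Agent.H673R2.OneTT.Sep3

/-!
# Many independent patterns are seldom all avoided
-/

set_option autoImplicit false

namespace Pool.Agent.TH771.CK

open MeasureTheory Pool.Agent.NPC Pool.Agent.H628R3.RO Pool.Agent.H673R2.OneOne
open Pool.Agent.H673R2.OneTT

/-- The set does not depend on the candidates in `C` (in one direction). -/
def Inv (C : Finset Cand) (Y : Set Oracle) : Prop :=
  ∀ κ ∈ C, ∀ A, plant (spots (mm κ) κ) A ∈ Y ↔ A ∈ Y

theorem Inv.inter {C : Finset Cand} {Y Z : Set Oracle} (h : Inv C Y) (h' : Inv C Z) :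
    Inv C (Y ∩ Z) := fun κ hκ A => by
  rw [Set.mem_inter_iff, Set.mem_inter_iff, h κ hκ A, h' κ hκ A]

theorem Inv.compl {C : Finset Cand} {Y : Set Oracle} (h : Inv C Y) : Inv C Yᶜ := fun κ hκ A => by
  rw [Set.mem_compl_iff, Set.mem_compl_iff, h κ hκ A]

theorem Inv.mono {C C' : Finset Cand} {Y : Set Oracle} (h : Inv C' Y) (hC : C ⊆ C') : Inv C Y :=
  fun κ hκ => h κ (hC hκ)

theorem Inv.noHit {C W : Finset Cand} {m : ℕ} (h : Disjoint C W) : Inv C (NoHit m W) :=
  fun _ hκ A => noHit_plant (fun h' => Finset.disjoint_left.1 h hκ h') A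

variable {ι : Type}

open Classical in
/-- Independent patterns are seldom all avoided. -/
theorem prod_le (J : Finset ι) (P : ι → Set Oracle) (C : ι → Finset Cand) {c : ℝ} (hc : 0 ≤ c)
    (hP : ∀ j ∈ J, MeasurableSet (P j))
    (h1 : ∀ j ∈ J, ∀ Y : Set Oracle, MeasurableSet Y → Inv (C j) Y →
      prob (Y ∩ (P j)ᶜ) ≤ c * prob Y)
    (h2 : ∀ i ∈ J, ∀ j ∈ J, i ≠ j → Inv (C j) (P i))
    {X : Set Oracle} (hX : MeasurableSet X) (hI : ∀ j ∈ J, Inv (C j) X) :
    prob (X ∩ ⋂ j ∈ J, (P j)ᶜ) ≤ c ^ J.card * prob X := by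
  induction J using Finset.induction_on with
  | empty => simp
  | insert a J ha ih =>
    have h3 := ih (fun j hj => hP j (Finset.mem_insert_of_mem hj))
      (fun j hj => h1 j (Finset.mem_insert_of_mem hj))
      (fun i hi j hj => h2 i (Finset.mem_insert_of_mem hi) j (Finset.mem_insert_of_mem hj))
      (fun j hj => hI j (Finset.mem_insert_of_mem hj))
    have h4 : X ∩ ⋂ j ∈ insert a J, (P j)ᶜ = (X ∩ ⋂ j ∈ J, (P j)ᶜ) ∩ (P a)ᶜ := by
      ext A
      simp only [Set.mem_inter_iff, Set.mem_iInter, Finset.mem_insert, forall_eq_or_imp]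
      tauto
    rw [h4, Finset.card_insert_of_notMem ha]
    refine (h1 a (Finset.mem_insert_self _ _) _ ?_ ?_).trans ?_
    · exact hX.inter (MeasurableSet.biInter (Finset.countable_toSet _)
        fun j hj => (hP j (Finset.mem_insert_of_mem hj)).compl)
    · refine (hI a (Finset.mem_insert_self _ _)).inter fun κ hκ A => ?_
      simp only [Set.mem_iInter, Set.mem_compl_iff]
      refine forall₂_congr fun j hj => not_congr ?_
      exact h2 j (Finset.mem_insert_of_mem hj) a (Finset.mem_insert_self _ _)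
        (fun h => ha (h ▸ hj)) κ hκ A
    · rw [pow_succ, mul_assoc, mul_comm (c ^ J.card), mul_assoc]
      exact mul_le_mul_of_nonneg_left (by rw [mul_comm]; exact h3) hc

/-- a pattern at one family of candidates -/
def Pat (m : ℕ) (W : Finset Cand) (b : Bool) : Set Oracle := {A | A ∈ NoHit m W ↔ b = true}

theorem meas_pat (m : ℕ) (W : Finset Cand) (b : Bool) : MeasurableSet (Pat m W b) := by
  cases b with
  | true =>
    have : Pat m W true = NoHit m W := by
      ext A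
      simp [Pat]
    rw [this]
    exact M2.measurableSet_noHit m W
  | false =>
    have : Pat m W false = (NoHit m W)ᶜ := by
      ext A
      simp [Pat]
    rw [this]
    exact (M2.measurableSet_noHit m W).compl

theorem inv_pat {C W : Finset Cand} {m : ℕ} (h : Disjoint C W) (b : Bool) :
    Inv C (Pat m W b) := fun κ hκ A => by
  unfold Pat
  simp only [Set.mem_ofPred_eq]
  rw [Inv.noHit h κ hκ A]

/-- the probability of a pattern -/
theorem pat_ge {m : ℕ} {W : Finset Cand} (hm : 1 ≤ m) (hW : ∀ κ ∈ W, mm κ = m)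
    (h1 : W.card ≤ 2 ^ m) (h2 : 2 ^ m ≤ 2 * W.card) (b : Bool) {Y : Set Oracle}
    (hY : MeasurableSet Y) (hI : Inv W Y) : 1 / 4 * prob Y ≤ prob (Y ∩ Pat m W b) := by
  have h3 : prob (Y ∩ NoHit m W) = prob Y * (1 - (1 / 2) ^ m) ^ W.card := by
    apply M2.prob_noHit_aux hY
    intro κ hκ A
    have := hI κ hκ A
    rwa [hW κ hκ] at this
  have h4 := pow_ge hm h1
  have h5 := pow_le h2
  have h6 := M2.prob_nonneg Y
  cases b with
  | true =>
    have : Pat m W true = NoHit m W := by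
      ext A
      simp [Pat]
    rw [this, h3]
    nlinarith
  | false =>
    have : Pat m W false = (NoHit m W)ᶜ := by
      ext A
      simp [Pat]
    rw [this]
    have h7 := M2.prob_inter_add_compl Y (M2.measurableSet_noHit m W)
    rw [h3] at h7
    nlinarith

theorem avoid_one {m : ℕ} {W : Finset Cand} (hm : 1 ≤ m) (hW : ∀ κ ∈ W, mm κ = m)
    (h1 : W.card ≤ 2 ^ m) (h2 : 2 ^ m ≤ 2 * W.card) (b : Bool) {Y : Set Oracle}
    (hY : MeasurableSet Y) (hI : Inv W Y) : prob (Y ∩ (Pat m W b)ᶜ) ≤ 15 / 16 * prob Y := by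
  have h3 := pat_ge hm hW h1 h2 b hY hI
  have h4 := M2.prob_inter_add_compl Y (meas_pat m W b)
  have h5 := M2.prob_nonneg Y
  linarith

theorem avoid_two {m m' : ℕ} {W W' : Finset Cand} (hm : 1 ≤ m) (hW : ∀ κ ∈ W, mm κ = m)
    (h1 : W.card ≤ 2 ^ m) (h2 : 2 ^ m ≤ 2 * W.card) (hm' : 1 ≤ m') (hW' : ∀ κ ∈ W', mm κ = m')
    (h1' : W'.card ≤ 2 ^ m') (h2' : 2 ^ m' ≤ 2 * W'.card) (hd : Disjoint W' W)
    (b b' : Bool) {Y : Set Oracle}
    (hY : MeasurableSet Y) (hI : Inv W Y) (hI' : Inv W' Y) :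
    prob (Y ∩ (Pat m W b ∩ Pat m' W' b')ᶜ) ≤ 15 / 16 * prob Y := by
  have h3 := pat_ge hm hW h1 h2 b hY hI
  have h4 := pat_ge hm' hW' h1' h2' b' (hY.inter (meas_pat m W b)) (hI'.inter (inv_pat hd b))
  have h5 := M2.prob_inter_add_compl Y ((meas_pat m W b).inter (meas_pat m' W' b'))
  rw [← Set.inter_assoc] at h5
  linarith

end Pool.Agent.TH771.CK
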