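import Pool.Agent.TH771.CK.Tail
import Pool.Agent.TH771.CK.Prod

/-!
# The leaves of a query algorithm which also reads the touched candidates
-/

set_option autoImplicit false

namespace Pool.Agent.TH771.CK

open MeasureTheory Pool.Agent.NPC Pool.Agent.H628R3.RO Pool.Agent.H673R2.OneOne
open Pool.Agent.H673R2.OneTT

/-- the runs on all tests -/
def allRun (M : Alg) (T : Finset (List Bool)) : QA (List Bool → Option (List Bool)) where
  val := fun A x => if x ∈ T then M.out A x else none
  qs := fun A => T.biUnion fun x => (QA.out M x).qs A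
  loc := fun A A' h => by
    have h1 : ∀ x ∈ T, (QA.out M x).val A' = (QA.out M x).val A ∧
        (QA.out M x).qs A' = (QA.out M x).qs A := fun x hx =>
      (QA.out M x).loc A A' fun y hy => h y (Finset.mem_biUnion.2 ⟨x, hx, hy⟩)
    constructor
    · funext x
      by_cases hx : x ∈ T
      · simp only [if_pos hx]
        have := (h1 x hx).1
        rwa [QA.out_val, QA.out_val] at this
      · simp only [if_neg hx]
    · exact Finset.biUnion_congr rfl fun x hx => (h1 x hx).2

theorem allRun_card {M : Alg} {T : Finset (List Bool)} {n : ℕ} (hT : ∀ x ∈ T, x.length = n)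
    (A : Oracle) : ((allRun M T).qs A).card ≤ T.card * M.p.eval n := by
  refine Finset.card_biUnion_le.trans ?_
  rw [← smul_eq_mul]
  refine Finset.sum_le_card_nsmul _ _ _ fun x hx => ?_
  have := QA.out_card M x A
  rwa [hT x hx] at this

theorem allRun_length {M : Alg} {T : Finset (List Bool)} {n : ℕ} (hT : ∀ x ∈ T, x.length = n)
    (A : Oracle) : ∀ y ∈ (allRun M T).qs A, y.length ≤ (qb M).eval n := by
  intro y hy
  obtain ⟨x, hx, hy⟩ := Finset.mem_biUnion.1 hy
  have := qb_spec M x A y hy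
  rwa [hT x hx] at this

open Classical in
/-- the positions of the candidate to which `x` belongs -/
noncomputable def spotsOf (x : List Bool) : Finset (List Bool) :=
  if h : ∃ κ, x ∈ spots (mm κ) κ then spots (mm h.choose) h.choose else ∅

theorem spotsOf_eq {x : List Bool} {κ : Cand} (hx : x ∈ spots (mm κ) κ) :
    spotsOf x = spots (mm κ) κ := by
  have h : ∃ κ, x ∈ spots (mm κ) κ := ⟨κ, hx⟩
  unfold spotsOf
  rw [dif_pos h]
  have h1 : κ = h.choose := by
    by_contra hne
    exact notMem_spots_of_ne hne hx h.choose_spec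
  rw [← h1]

theorem mem_spotsOf {x y : List Bool} (h : y ∈ spotsOf x) :
    ∃ κ, x ∈ spots (mm κ) κ ∧ y ∈ spots (mm κ) κ := by
  unfold spotsOf at h
  split_ifs at h with h1
  · exact ⟨_, h1.choose_spec, h⟩
  · exact absurd h (Finset.notMem_empty _)

/-- the algorithm `G`, which also reads all the candidates it has touched, and some more strings -/
noncomputable def ext {β : Type} (G : QA β) (S : β → Finset (List Bool)) : QA Unit where
  val := fun _ => ()
  qs := fun A => (G.qs A ∪ (G.qs A).biUnion spotsOf) ∪ S (G.val A)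
  loc := fun A A' h => by
    obtain ⟨h1, h2⟩ := G.loc A A' fun x hx =>
      h x (Finset.mem_union_left _ (Finset.mem_union_left _ hx))
    rw [h1, h2]
    exact ⟨rfl, rfl⟩

variable {β : Type} {G : QA β} {S : β → Finset (List Bool)} {A₀ : Oracle}

theorem ext_leaf {A : Oracle} (h : A ∈ Leaf (ext G S) A₀) :
    G.val A = G.val A₀ ∧ G.qs A = G.qs A₀ ∧
      (∀ κ, Tc (G.qs A₀) κ → (Hit (mm κ) κ A ↔ Hit (mm κ) κ A₀)) ∧
      ∀ x ∈ S (G.val A₀), A x = A₀ x := by
  have h1 := G.loc A₀ A fun x hx => h x (Finset.mem_union_left _ (Finset.mem_union_left _ hx))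
  refine ⟨h1.1, h1.2, fun κ hκ => ?_, fun x hx => h x (Finset.mem_union_right _ hx)⟩
  obtain ⟨x, hx, hxs⟩ := hκ
  rw [M2.hit_iff, M2.hit_iff]
  refine forall₂_congr fun y hy => ?_
  rw [h y (Finset.mem_union_left _ (Finset.mem_union_right _ (Finset.mem_biUnion.2
    ⟨x, hx, by rw [spotsOf_eq hxs]; exact hy⟩)))]

theorem ext_inv {κ : Cand} (h1 : ¬ Tc (G.qs A₀) κ)
    (h2 : ∀ x ∈ S (G.val A₀), x ∉ spots (mm κ) κ) :
    ∀ A, plant (spots (mm κ) κ) A ∈ Leaf (ext G S) A₀ ↔ A ∈ Leaf (ext G S) A₀ := by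
  refine plant_leaf fun x hx hxs => ?_
  rcases Finset.mem_union.1 hx with hx | hx
  · rcases Finset.mem_union.1 hx with hx | hx
    · exact h1 ⟨x, hx, hxs⟩
    · obtain ⟨y, hy, hx⟩ := Finset.mem_biUnion.1 hx
      obtain ⟨κ', h3, h4⟩ := mem_spotsOf hx
      by_cases hne : κ = κ'
      · subst hne
        exact h1 ⟨y, hy, h3⟩
      · exact notMem_spots_of_ne hne hxs h4
  · exact h2 x hx hxs

/-- the status of a string without touched hits -/
theorem hs_iff2 {c : ℕ} {u : List Bool} {A : Oracle} {Q : Finset (List Bool)}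
    (hA : ∀ w : List Bool, w.length = u.length → Tc Q (c, u ++ w) →
      ¬ Hit (mm (c, u ++ w)) (c, u ++ w) A) :
    u ∈ Hs c A ↔ A ∉ NoHit u.length (Wc c u Q) := by
  constructor
  · rintro ⟨w, hw, hH⟩ hN
    have h1 : (c, u ++ w) ∈ Wc c u Q := by
      rw [mem_Wc]
      refine ⟨⟨w, hw, rfl⟩, fun hT => hA w hw hT ?_⟩
      rw [mm_cand hw]
      exact hH
    exact hN _ h1 hH
  · intro h
    unfold NoHit at h
    simp only [Set.mem_ofPred_eq, not_forall, not_not] at h
    obtain ⟨κ, hκ, hH⟩ := h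
    obtain ⟨⟨w, hw, rfl⟩, -⟩ := mem_Wc.1 hκ
    exact ⟨w, hw, hH⟩

/-! ### The set with signs -/

/-- the strings `b :: v` such that `v` is in `DD` if and only if `b = 1` -/
def DS (A : Oracle) : Set (List Bool) := {z | ∃ b v, z = b :: v ∧ (v ∈ DD A ↔ b = true)}

theorem dS_congr {z : List Bool} {A A' : Oracle}
    (h : ∀ x : List Bool, x.length ≤ bK.eval z.length → A x = A' x) :
    z ∈ DS A ↔ z ∈ DS A' := by
  unfold DS
  simp only [Set.mem_ofPred_eq]
  refine exists_congr fun b => exists_congr fun v => and_congr_right fun hz => ?_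
  have h1 : v ∈ DD A ↔ v ∈ DD A' := dD_congr fun x hx => h x (hx.trans (eval_mono _ (by
    rw [hz]
    simp)))
  rw [h1]

/-- the string inside of a long string -/
def uOf (z : List Bool) : List Bool :=
  if z.tail.head? = some true then z.tail.tail.tail else z.tail.tail

theorem length_uOf (z : List Bool) : z.length ≤ (uOf z).length + 3 := by
  unfold uOf
  split_ifs <;> simp only [List.length_tail] <;> omega

/-- the first three symbols -/
def key (z : List Bool) : Option Bool × Option Bool × Option Bool :=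
  (z.head?, z.tail.head?, z.tail.tail.head?)

theorem eq_of_key {z z' : List Bool} (hz : 3 ≤ z.length) (hz' : 3 ≤ z'.length)
    (h1 : key z = key z') (h2 : uOf z = uOf z') : z = z' := by
  obtain ⟨a, b, c, z, rfl⟩ : ∃ a b c t, z = a :: b :: c :: t := by
    rcases z with _ | ⟨a, _ | ⟨b, _ | ⟨c, t⟩⟩⟩
    · simp at hz
    · simp at hz
    · simp at hz
    · exact ⟨a, b, c, t, rfl⟩
  obtain ⟨a', b', c', z', rfl⟩ : ∃ a b c t, z' = a :: b :: c :: t := by
    rcases z' with _ | ⟨a, _ | ⟨b, _ | ⟨c, t⟩⟩⟩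
    · simp at hz'
    · simp at hz'
    · simp at hz'
    · exact ⟨a, b, c, t, rfl⟩
  simp only [key, List.head?_cons, List.tail_cons, Prod.mk.injEq, Option.some.injEq] at h1
  obtain ⟨rfl, rfl, rfl⟩ := h1
  unfold uOf at h2
  cases b <;> simp_all

/-- A long string: for one of the two values of the membership of `uOf z` in the random set, the
membership of `z` in `DS` is determined. -/
theorem class_long {z : List Bool} (hz : 4 ≤ z.length) : ∃ β γ : Bool, ∀ A,
    (uOf z ∈ Hs 6 A ↔ β = true) → (z ∈ DS A ↔ γ = true) := by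
  obtain ⟨a, b, c, t, rfl⟩ : ∃ a b c t, z = a :: b :: c :: t := by
    rcases z with _ | ⟨a, _ | ⟨b, _ | ⟨c, t⟩⟩⟩
    · simp at hz
    · simp at hz
    · simp at hz
    · exact ⟨a, b, c, t, rfl⟩
  have hDS : ∀ A, (a :: b :: c :: t ∈ DS A ↔ (b :: c :: t ∈ DD A ↔ a = true)) := by
    intro A
    unfold DS
    simp only [Set.mem_ofPred_eq]
    constructor
    · rintro ⟨b', v, h, h'⟩
      obtain ⟨rfl, rfl⟩ := List.cons.inj h
      exact h'
    · intro h
      exact ⟨a, _, rfl, h⟩
  cases b with
  | false =>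
    refine ⟨true, a, fun A h => ?_⟩
    have h1 : c :: t ∈ Hs 6 A := h.2 rfl
    have h2 : false :: c :: t ∈ DD A := Or.inl ⟨_, rfl, h1⟩
    rw [hDS]
    simp [h2]
  | true =>
    cases c with
    | false =>
      refine ⟨false, !a, fun A h => ?_⟩
      have h1 : t ∉ Hs 6 A := fun h' => by simpa using h.1 h'
      have h2 : true :: false :: t ∉ DD A := by
        rintro (⟨u, h3, -⟩ | ⟨u, h3, h4, -⟩ | ⟨u, h3, -⟩)
        · simp at h3
        · simp only [List.cons.injEq, true_and] at h3
          exact h1 (h3 ▸ h4)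
        · simp at h3
      rw [hDS]
      cases a <;> simp [h2]
    | true =>
      refine ⟨true, a, fun A h => ?_⟩
      have h1 : t ∈ Hs 6 A := h.2 rfl
      have h2 : true :: true :: t ∈ DD A := Or.inr (Or.inr ⟨t, rfl, Or.inl h1⟩)
      rw [hDS]
      simp [h2]

end Pool.Agent.TH771.CK
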