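import Pool.Agent.TH771.CK.Red
import Pool.Agent.TH680.LHD.Lev
import Pool.Agent.H620R2.Gauge2.Trans
import Pool.Agent.H620R2.Gauge.Upper

/-!
# Complete sets: few questions
-/

set_option autoImplicit false

namespace Pool.Agent.TH771.CK

open MeasureTheory Filter Pool.Agent.NPC Pool.Agent.H628R3.RO Pool.Agent.H673R2.OneOne
open Pool.Agent.H673R2.OneTT
open Pool.Agent.H583R2.S2 (IsP)

/-- `B` is in `NP` relative to `A`, and every set in `NP` relative to `A` reduces to it by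
reductions of the kind `R`. -/
def Complete (A : Oracle) (R : Oracle → Set (List Bool) → Set (List Bool) → Prop)
    (B : Set (List Bool)) : Prop :=
  IsNP A B ∧ ∀ L, IsNP A L → R A L B

theorem red1tt_of_P {A : Oracle} {L : Set (List Bool)} (h : IsP A L) (B : Set (List Bool)) :
    Red1tt A L B := by
  obtain ⟨F, hF, h1⟩ := h
  refine ⟨fun x => x, fun y => F (unpair y).1, IsFP.of_poly Poly.id,
    IsFP.comp hF (IsFP.of_poly (Poly.fst poly_unpair)), fun x => ?_⟩
  rw [h1]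
  simp only [unpair_pairBits]

theorem red_of_P {A : Oracle} {L : Set (List Bool)} (h : IsP A L) {B : Set (List Bool)}
    (h1 : B.Nonempty) (h0 : Bᶜ.Nonempty) : Red A L B := by
  obtain ⟨F, hF, h2⟩ := h
  obtain ⟨b1, h1⟩ := h1
  obtain ⟨b0, h0⟩ := h0
  have h3 : Poly (fun t : List Bool => if t = [true] then b1 else b0) :=
    Poly.ite (Poly.decide_eq Poly.id (NPC.Poly.const _)) (NPC.Poly.const _) (NPC.Poly.const _)
  refine ⟨_, IsFP.comp (IsFP.of_poly h3) hF, fun x => ?_⟩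
  rw [h2]
  by_cases h : F x = [true]
  · simp [h, h1]
  · have h0' : b0 ∉ B := h0
    simp [h, h0']

/-- a set which needs two questions is not trivial -/
theorem nonempty_DD {A : Oracle} (h : ¬ Red1tt A (Hs 5 A) (DD A)) : (DD A).Nonempty := by
  rw [Set.nonempty_iff_ne_empty]
  intro hE
  apply h
  obtain ⟨Q₁, Q₂, H, -, -, hH, h1⟩ := red2T_DD (isNP_Hs A 5)
  apply red1tt_of_P
  refine ⟨fun x => H (pairBits x [false, false]), IsFP.comp hH (IsFP.of_poly
    (H622R2.poly_pairBits Poly.id (NPC.Poly.const _))), fun x => ?_⟩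
  rw [h1]
  have h2 : ∀ y, chi (DD A) y = [false] := fun y => by simp [chi, hE]
  rw [h2, h2]
  exact Iff.rfl

/-- the first side -/
theorem side_one {A : Oracle} (hA : ∀ M : Alg, A ∉ RX M) :
    ∃ D : Set (List Bool), D.Nonempty ∧ Dᶜ.Nonempty ∧ Complete A Red2T D ∧ Complete A RedT D ∧
      ¬ Complete A Red1tt D ∧ ¬ Complete A Red D := by
  have h := not_red1tt hA
  refine ⟨DD A, nonempty_DD h, ⟨[], nil_notMem_DD A⟩, ⟨isNP_DD A, fun L hL => red2T_DD hL⟩,
    ⟨isNP_DD A, fun L hL => RedT.of_two (red2T_DD hL)⟩, fun h1 => h (h1.2 _ (isNP_Hs A 5)),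
    fun h1 => h (Red1tt.of_red (h1.2 _ (isNP_Hs A 5)))⟩

/-- the second side -/
theorem side_two {A : Oracle} (h : ∀ L, IsNP A L → IsP A L) {B : Set (List Bool)}
    (hB : IsNP A B) :
    Complete A Red1tt B ∧ (B.Nonempty → Bᶜ.Nonempty → Complete A Red B) :=
  ⟨⟨hB, fun L hL => red1tt_of_P (h L hL) B⟩, fun h1 h0 => ⟨hB, fun L hL => red_of_P (h L hL) h1 h0⟩⟩

theorem p_of_pspace {A : Oracle} (h : ∀ L, Pool.Agent.H620R2.Gauge.IsPSPACE A L →
    Pool.Agent.NPC.Reduces L {x | A x = true}) {L : Set (List Bool)} (hL : IsNP A L) : IsP A L :=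
  Pool.Agent.TH680.LHD.isP_iff.2 (Pool.Agent.H620R2.Gauge.isP_of_reduces
    (h L (Pool.Agent.TH680.LHD.isNP_iff.1 hL).isPSPACE))

end Pool.Agent.TH771.CK
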