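import Pool.Agent.TH771.CK.Ext

/-!
# The estimate for one leaf
-/

set_option autoImplicit false

namespace Pool.Agent.TH771.CK

open MeasureTheory Pool.Agent.NPC Pool.Agent.H628R3.RO Pool.Agent.H673R2.OneOne
open Pool.Agent.H673R2.OneTT

/-- the tests -/
def tests (l n : ℕ) : Finset (List Bool) := (SS l).image fun z => z ++ zz (n - l)

theorem card_tests (l n : ℕ) : (tests l n).card = 2 ^ l := by
  unfold tests
  rw [Finset.card_image_of_injective, card_SS]
  intro z z' h
  exact List.append_cancel_right h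

theorem length_tests {l n : ℕ} (h : l ≤ n) : ∀ x ∈ tests l n, x.length = n := by
  intro x hx
  obtain ⟨z, hz, rfl⟩ := Finset.mem_image.1 hx
  rw [List.length_append, length_zz, mem_SS.1 hz]
  omega

/-- the algorithm `M` is right at all tests -/
def WorkA (M : Alg) (T : Finset (List Bool)) : Set Oracle :=
  {A | ∀ x ∈ T, ∃ z, M.out A x = some z ∧ (x ∈ Hs 5 A ↔ z ∈ DS A)}

open Classical in
/-- the relevant candidates -/
noncomputable def univC (l N : ℕ) : Finset Cand :=
  (({5, 6} : Finset ℕ) ×ˢ (strs N).toFinset).filter (fun κ => 8 * l ≤ mm κ)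

/-- all candidates of a string -/
def fam (c : ℕ) (u : List Bool) : Finset Cand := (SS u.length).image fun w => (c, u ++ w)

theorem mem_fam {c : ℕ} {u : List Bool} {κ : Cand} :
    κ ∈ fam c u ↔ ∃ w : List Bool, w.length = u.length ∧ (c, u ++ w) = κ := by
  unfold fam
  rw [Finset.mem_image]
  simp only [mem_SS]

theorem Wc_sub {c : ℕ} {u : List Bool} {Q : Finset (List Bool)} : Wc c u Q ⊆ fam c u := by
  intro κ hκ
  obtain ⟨⟨w, hw, rfl⟩, -⟩ := mem_Wc.1 hκ
  exact mem_fam.2 ⟨w, hw, rfl⟩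

theorem fam_disj {c c' : ℕ} {u u' : List Bool} (h : (c, u) ≠ (c', u')) :
    Disjoint (fam c u) (fam c' u') := by
  rw [Finset.disjoint_left]
  intro κ h1 h2
  obtain ⟨w, hw, rfl⟩ := mem_fam.1 h1
  obtain ⟨w', hw', h3⟩ := mem_fam.1 h2
  rw [Prod.mk.injEq] at h3
  have h4 := congrArg List.length h3.2
  rw [List.length_append, List.length_append, hw, hw'] at h4
  have h5 : u'.length = u.length := by omega
  have h6 := List.append_inj_left h3.2 h5
  exact h (by rw [h3.1, h6])

theorem mm_fam {c : ℕ} {u : List Bool} {κ : Cand} (h : κ ∈ fam c u) : mm κ = u.length := by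
  obtain ⟨w, hw, rfl⟩ := mem_fam.1 h
  exact mm_cand hw

theorem mem_univC {c l N : ℕ} {u : List Bool} (hc : c = 5 ∨ c = 6) (hu : 8 * l ≤ u.length)
    {Q : Finset (List Bool)} (hQ : ∀ y ∈ Q, y.length ≤ N) {κ : Cand} (hκ : κ ∈ fam c u)
    (hT : Tc Q κ) : κ ∈ univC l N := by
  classical
  unfold univC
  rw [Finset.mem_filter, Finset.mem_product, mm_fam hκ]
  refine ⟨⟨?_, ?_⟩, hu⟩
  · obtain ⟨w, -, rfl⟩ := mem_fam.1 hκ
    rcases hc with rfl | rfl <;> simp
  · obtain ⟨y, hy, hys⟩ := hT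
    have h1 := hQ y hy
    obtain ⟨i, -, rfl⟩ := M2.mem_spots.1 hys
    rw [length_pos] at h1
    rw [List.mem_toFinset, mem_strs]
    omega

theorem good_card {ι : Type} {J : Finset ι} {C : ι → Finset Cand}
    (hd : ∀ i ∈ J, ∀ j ∈ J, i ≠ j → Disjoint (C i) (C j)) (H : Finset Cand) :
    ∃ J' ⊆ J, (∀ i ∈ J', Disjoint (C i) H) ∧ J.card ≤ J'.card + H.card := by
  classical
  refine ⟨J.filter (fun i => Disjoint (C i) H), Finset.filter_subset _ _,
    fun i hi => (Finset.mem_filter.1 hi).2, ?_⟩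
  have h1 := Finset.card_filter_add_card_filter_not (s := J) (fun i => Disjoint (C i) H)
  have h2 : (J.filter (fun i => ¬ Disjoint (C i) H)).card ≤ H.card := by
    have h3 : ∀ i ∈ J.filter (fun i => ¬ Disjoint (C i) H), ∃ κ, κ ∈ C i ∧ κ ∈ H := by
      intro i hi
      exact Finset.not_disjoint_iff.1 (Finset.mem_filter.1 hi).2
    choose! f hf using h3
    refine Finset.card_le_card_of_injOn f (fun i hi => (hf i hi).2) fun i hi i' hi' h => ?_
    by_contra hne
    have h4 := hd i (Finset.mem_filter.1 hi).1 i' (Finset.mem_filter.1 hi').1 hne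
    exact Finset.disjoint_left.1 h4 (hf i hi).1 (h ▸ (hf i' hi').1)
  omega

theorem contra {a b c d : Prop} (h2 : a ↔ b) (h3 : a ↔ ¬ c) (h4 : c ↔ d) (h6 : b ↔ d) :
    False := by
  by_cases h7 : d
  · exact h3.1 (h2.2 (h6.2 h7)) (h4.2 h7)
  · exact h7 (h6.1 (h2.1 (h3.2 fun h8 => h7 (h4.1 h8))))

section

variable {M : Alg} {l n t N : ℕ} {A₀ : Oracle}

open Classical in
/-- the strings which are read in addition -/
noncomputable def addS (l n : ℕ) (f : List Bool → Option (List Bool)) : Finset (List Bool) :=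
  if 2 ^ l ≤ 2 * ((tests l n).filter (fun x => short n (f x) = true)).card then
    (strs n).toFinset else ∅

/-- the extended algorithm -/
noncomputable def E (M : Alg) (l n : ℕ) : QA Unit := ext (allRun M (tests l n)) (addS l n)

open Classical in
/-- the touched hits -/
noncomputable def hits (M : Alg) (l n : ℕ) (A₀ : Oracle) : Finset Cand :=
  (univC l ((qb M).eval n)).filter (fun κ =>
    Tc ((allRun M (tests l n)).qs A₀) κ ∧ Hit (mm κ) κ A₀)

theorem card_hits (h : A₀ ∉ Many (allRun M (tests l n)) (univC l ((qb M).eval n)) t) :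
    (hits M l n A₀).card < t := by
  classical
  by_contra hcon
  push Not at hcon
  obtain ⟨K, hK, hKc⟩ := Finset.exists_subset_card_eq hcon
  apply h
  refine ⟨K, fun κ hκ => (Finset.mem_filter.1 (hK hκ)).1, hKc, fun κ hκ =>
    (Finset.mem_filter.1 (hK hκ)).2⟩

/-- a string without touched hits -/
theorem status (hln : l ≤ n) {c : ℕ} (hc : c = 5 ∨ c = 6) {u : List Bool} (hu : 8 * l ≤ u.length)
    (hd : Disjoint (fam c u) (hits M l n A₀)) {A : Oracle} (hA : A ∈ Leaf (E M l n) A₀) :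
    u ∈ Hs c A ↔ A ∉ NoHit u.length (Wc c u ((allRun M (tests l n)).qs A₀)) := by
  classical
  obtain ⟨-, h2, h3, -⟩ := ext_leaf hA
  apply hs_iff2
  intro w hw hT hH
  have h4 : (c, u ++ w) ∈ fam c u := mem_fam.2 ⟨w, hw, rfl⟩
  refine Finset.disjoint_left.1 hd h4 (Finset.mem_filter.2
    ⟨mem_univC hc hu (allRun_length (length_tests hln) A₀) h4 hT, hT, (h3 _ hT).1 hH⟩)

/-- The untouched candidates of a string: the numbers. -/
theorem nums {c : ℕ} {u : List Bool} {Q : Finset (List Bool)} (h : 2 * Q.card ≤ 2 ^ u.length) :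
    (∀ κ ∈ Wc c u Q, mm κ = u.length) ∧ (Wc c u Q).card ≤ 2 ^ u.length ∧
      2 ^ u.length ≤ 2 * (Wc c u Q).card := by
  refine ⟨fun κ hκ => mm_fam (Wc_sub hκ), card_Wc_le c u Q, ?_⟩
  have := card_Wc_ge c u Q
  omega

theorem inv_five {x : List Bool} (hx : x.length = n) :
    Inv (Wc 5 x ((allRun M (tests l n)).qs A₀)) (Leaf (E M l n) A₀) := by
  intro κ hκ
  obtain ⟨⟨w, hw, rfl⟩, hT⟩ := mem_Wc.1 hκ
  refine ext_inv hT fun y hy hys => ?_
  have h1 : y.length ≤ n := by
    unfold addS at hy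
    split_ifs at hy with h
    · rw [List.mem_toFinset, mem_strs] at hy
      exact hy
    · exact absurd hy (Finset.notMem_empty _)
  obtain ⟨i, -, rfl⟩ := M2.mem_spots.1 hys
  rw [length_pos] at h1
  simp only [List.length_append, hw, hx] at h1
  omega

theorem inv_six {u : List Bool} (h : addS l n ((allRun M (tests l n)).val A₀) = ∅) :
    Inv (Wc 6 u ((allRun M (tests l n)).qs A₀)) (Leaf (E M l n) A₀) := by
  intro κ hκ
  obtain ⟨⟨w, hw, rfl⟩, hT⟩ := mem_Wc.1 hκ
  refine ext_inv hT fun y hy => ?_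
  rw [h] at hy
  exact absurd hy (Finset.notMem_empty _)

open Classical in
/-- a family of tests, with one known value for each -/
theorem bound_one (hln : 8 * l ≤ n) (hn : 1 ≤ n)
    (hQ : 2 * ((allRun M (tests l n)).qs A₀).card ≤ 2 ^ n)
    (ht : (hits M l n A₀).card < t) {J : Finset (List Bool)} (hJ : ∀ x ∈ J, x.length = n)
    (b : List Bool → Bool) {K : ℕ} (hK : K + t ≤ J.card) {Z : Set Oracle}
    (hZ : ∀ A ∈ Z, A ∈ Leaf (E M l n) A₀ → ∀ x ∈ J, (x ∈ Hs 5 A ↔ b x = true)) :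
    prob (Z ∩ Leaf (E M l n) A₀) ≤ (15 / 16) ^ K * prob (Leaf (E M l n) A₀) := by
  set Q := (allRun M (tests l n)).qs A₀ with hQd
  obtain ⟨J', hJ'J, hJ'd, hJ'c⟩ := good_card (J := J) (C := fam 5)
    (fun x _ x' _ hne => fam_disj (by simpa using hne)) (hits M l n A₀)
  have hcard : K ≤ J'.card := by omega
  have h1 := prod_le (c := 15 / 16) J' (fun x => Pat n (Wc 5 x Q) (b x)) (fun x => Wc 5 x Q)
    (by norm_num) (fun x _ => meas_pat _ _ _) (fun x hx Y hY hI => by
      have hxn := hJ x (hJ'J hx)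
      obtain ⟨g1, g2, g3⟩ := nums (c := 5) (u := x) (Q := Q) (by rw [hxn]; exact hQ)
      rw [hxn] at g1 g2 g3
      exact avoid_one hn g1 g2 g3 (b x) hY hI)
    (fun x _ x' _ hne => inv_pat ((fam_disj (by simpa using hne.symm)).mono Wc_sub Wc_sub) _)
    (meas_leaf _ _) (fun x hx => inv_five (hJ x (hJ'J hx)))
  refine (M2.prob_mono ?_).trans (h1.trans ?_)
  · rintro A ⟨hA, hL⟩
    refine ⟨hL, ?_⟩
    simp only [Set.mem_iInter, Set.mem_compl_iff]
    intro x hx hP
    have hxn := hJ x (hJ'J hx)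
    have h2 := hZ A hA hL x (hJ'J hx)
    have h3 := status (by omega) (Or.inl rfl) (by omega) (hJ'd x hx) hL
    rw [hxn] at h3
    have h4 : A ∈ NoHit n (Wc 5 x Q) ↔ b x = true := hP
    exact contra h2 h3 h4 Iff.rfl
  · apply mul_le_mul_of_nonneg_right _ (M2.prob_nonneg _)
    exact pow_le_pow_of_le_one (by norm_num) (by norm_num) hcard

open Classical in
/-- a family of tests with different strings inside -/
theorem bound_two (hln : 8 * l ≤ n) (hn : 1 ≤ n) (hl : 1 ≤ l)
    (hQ : 2 * ((allRun M (tests l n)).qs A₀).card ≤ 2 ^ (8 * l))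
    (hS : addS l n ((allRun M (tests l n)).val A₀) = ∅)
    (ht : (hits M l n A₀).card < t) {J : Finset (List Bool)} (hJ : ∀ x ∈ J, x.length = n)
    (z : List Bool → List Bool) (hz : ∀ x ∈ J, 8 * l + 4 ≤ (z x).length)
    (hinj : ∀ x ∈ J, ∀ x' ∈ J, uOf (z x) = uOf (z x') → x = x')
    {K : ℕ} (hK : K + t ≤ J.card) {Z : Set Oracle}
    (hZ : ∀ A ∈ Z, A ∈ Leaf (E M l n) A₀ → ∀ x ∈ J, (x ∈ Hs 5 A ↔ z x ∈ DS A)) :
    prob (Z ∩ Leaf (E M l n) A₀) ≤ (15 / 16) ^ K * prob (Leaf (E M l n) A₀) := by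
  have hcl : ∀ x ∈ J, ∃ β γ : Bool, ∀ A, (uOf (z x) ∈ Hs 6 A ↔ β = true) →
      (z x ∈ DS A ↔ γ = true) := fun x hx => class_long (by have := hz x hx; omega)
  choose! β γ hβ using hcl
  have hu : ∀ x ∈ J, 8 * l + 1 ≤ (uOf (z x)).length := fun x hx => by
    have h1 := length_uOf (z x)
    have h2 := hz x hx
    omega
  set Q := (allRun M (tests l n)).qs A₀ with hQd
  set C : List Bool → Finset Cand := fun x => fam 5 x ∪ fam 6 (uOf (z x)) with hC
  have hCd : ∀ x ∈ J, ∀ x' ∈ J, x ≠ x' → Disjoint (C x) (C x') := by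
    intro x hx x' hx' hne
    rw [hC, Finset.disjoint_union_left, Finset.disjoint_union_right, Finset.disjoint_union_right]
    refine ⟨⟨fam_disj (by simpa using hne), fam_disj (by simp)⟩, fam_disj (by simp),
      fam_disj ?_⟩
    intro h
    exact hne (hinj x hx x' hx' (congrArg Prod.snd h))
  obtain ⟨J', hJ'J, hJ'd, hJ'c⟩ := good_card (J := J) (C := C) hCd (hits M l n A₀)
  have hcard : K ≤ J'.card := by omega
  have hQ5 : ∀ x ∈ J, 2 * Q.card ≤ 2 ^ x.length := fun x hx =>
    hQ.trans (Nat.pow_le_pow_right (by norm_num) (by rw [hJ x hx]; exact hln))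
  have hQ6 : ∀ x ∈ J, 2 * Q.card ≤ 2 ^ (uOf (z x)).length := fun x hx =>
    hQ.trans (Nat.pow_le_pow_right (by norm_num) (by have := hu x hx; omega))
  have hsub : ∀ x, Wc 5 x Q ∪ Wc 6 (uOf (z x)) Q ⊆ C x := fun x =>
    Finset.union_subset_union Wc_sub Wc_sub
  have h1 := prod_le (c := 15 / 16) J'
    (fun x => Pat n (Wc 5 x Q) (γ x) ∩ Pat (uOf (z x)).length (Wc 6 (uOf (z x)) Q) (!(β x)))
    (fun x => Wc 5 x Q ∪ Wc 6 (uOf (z x)) Q)
    (by norm_num) (fun x _ => (meas_pat _ _ _).inter (meas_pat _ _ _)) (fun x hx Y hY hI => by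
      have hxJ := (hJ'J hx)
      have hxn := hJ x hxJ
      obtain ⟨g1, g2, g3⟩ := nums (c := 5) (u := x) (Q := Q) (hQ5 x hxJ)
      obtain ⟨k1, k2, k3⟩ := nums (c := 6) (u := uOf (z x)) (Q := Q) (hQ6 x hxJ)
      rw [hxn] at g1 g2 g3
      exact avoid_two hn g1 g2 g3 (by have := hu x hxJ; omega) k1 k2 k3
        ((fam_disj (by simp)).mono Wc_sub Wc_sub) (γ x) (!(β x)) hY
        (hI.mono Finset.subset_union_left) (hI.mono Finset.subset_union_right))
    (fun x hx x' hx' hne => by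
      have hd := (hCd x' (hJ'J hx') x (hJ'J hx) hne.symm).mono
        (hsub x') (hsub x)
      exact (inv_pat (hd.mono_right Finset.subset_union_left) _).inter
        (inv_pat (hd.mono_right Finset.subset_union_right) _))
    (meas_leaf _ _) (fun x hx κ hκ => by
      rcases Finset.mem_union.1 hκ with h | h
      · exact inv_five (hJ x (hJ'J hx)) κ h
      · exact inv_six hS κ h)
  refine (M2.prob_mono ?_).trans (h1.trans ?_)
  · rintro A ⟨hA, hL⟩
    refine ⟨hL, ?_⟩
    simp only [Set.mem_iInter, Set.mem_compl_iff]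
    rintro x hx ⟨hP, hP'⟩
    have hxJ := hJ'J hx
    have hxn := hJ x hxJ
    have h2 := hZ A hA hL x hxJ
    have hd := hJ'd x hx
    rw [hC, Finset.disjoint_union_left] at hd
    have h3 := status (by omega) (Or.inl rfl) (by omega) hd.1 hL
    have h3' := status (u := uOf (z x)) (by omega) (Or.inr rfl)
      (by have := hu x hxJ; omega) hd.2 hL
    rw [hxn] at h3
    have h4 : A ∈ NoHit n (Wc 5 x Q) ↔ γ x = true := hP
    have h4' : A ∈ NoHit (uOf (z x)).length (Wc 6 (uOf (z x)) Q) ↔ (!(β x)) = true := hP'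
    have h5 : uOf (z x) ∈ Hs 6 A ↔ β x = true := by
      rw [h3', h4']
      cases β x <;> simp
    exact contra h2 h3 h4 (hβ x hxJ A h5)
  · apply mul_le_mul_of_nonneg_right _ (M2.prob_nonneg _)
    exact pow_le_pow_of_le_one (by norm_num) (by norm_num) hcard

end

end Pool.Agent.TH771.CK
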