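import Pool.Agent.TH771.CK.LeafB

/-!
# The estimate for one leaf: the cases
-/

set_option autoImplicit false

namespace Pool.Agent.TH771.CK

open MeasureTheory Pool.Agent.NPC Pool.Agent.H628R3.RO Pool.Agent.H673R2.OneOne
open Pool.Agent.H673R2.OneTT

variable {M : Alg} {l n t j : ℕ} {A₀ : Oracle}

theorem val_leaf {A : Oracle} (hA : A ∈ Leaf (E M l n) A₀) {x : List Bool} (hx : x ∈ tests l n) :
    M.out A x = M.out A₀ x := by
  have h1 := congrFun (ext_leaf hA).1 x
  simp only [allRun, if_pos hx] at h1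
  exact h1

open Classical in
theorem leaf_bound (hj : 3 ≤ j) (hl : l = 4 * j) (hln : 8 * l ≤ n) (hb : bK.eval (8 * l + 3) ≤ n)
    (hQ : 2 * ((allRun M (tests l n)).qs A₀).card ≤ 2 ^ (8 * l)) {K : ℕ} (hK : K + t ≤ 2 ^ j)
    (hM : A₀ ∉ Many (allRun M (tests l n)) (univC l ((qb M).eval n)) t) :
    prob (WorkA M (tests l n) ∩ Leaf (E M l n) A₀) ≤
      2 * (15 / 16) ^ K * prob (Leaf (E M l n) A₀) := by
  have ht := card_hits hM
  have hl1 : 1 ≤ l := by omega
  have hn1 : 1 ≤ n := by omega
  have hlen := length_tests (show l ≤ n by omega)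
  have hQn : 2 * ((allRun M (tests l n)).qs A₀).card ≤ 2 ^ n :=
    hQ.trans (Nat.pow_le_pow_right (by norm_num) hln)
  have hp := M2.prob_nonneg (Leaf (E M l n) A₀)
  have hK0 : (0 : ℝ) ≤ (15 / 16) ^ K := by positivity
  by_cases hnone : ∃ x ∈ tests l n, M.out A₀ x = none
  · obtain ⟨x, hx, hxn⟩ := hnone
    have h1 : WorkA M (tests l n) ∩ Leaf (E M l n) A₀ ⊆ ∅ := by
      rintro A ⟨hA, hL⟩
      obtain ⟨z, hz, -⟩ := hA x hx
      rw [val_leaf hL hx, hxn] at hz
      exact absurd hz (by simp)
    refine (M2.prob_mono h1).trans ?_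
    have h2 : prob (∅ : Set Oracle) = 0 := by simp [prob]
    rw [h2]
    positivity
  have hz : ∀ x ∈ tests l n, ∃ z, M.out A₀ x = some z := by
    intro x hx
    rcases h : M.out A₀ x with _ | z
    · exact absurd ⟨x, hx, h⟩ hnone
    · exact ⟨z, rfl⟩
  choose! z hz using hz
  have hW : ∀ A ∈ WorkA M (tests l n), A ∈ Leaf (E M l n) A₀ → ∀ x ∈ tests l n,
      (x ∈ Hs 5 A ↔ z x ∈ DS A) := by
    intro A hA hL x hx
    obtain ⟨z', h1, h2⟩ := hA x hx
    rw [val_leaf hL hx, hz x hx, Option.some.injEq] at h1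
    rw [h1]
    exact h2
  have hval : ∀ x ∈ tests l n, (allRun M (tests l n)).val A₀ x = some (z x) := by
    intro x hx
    simp only [allRun, if_pos hx]
    exact hz x hx
  set Sh := (tests l n).filter (fun x => short n ((allRun M (tests l n)).val A₀ x) = true)
    with hSh
  have hsh : ∀ x ∈ tests l n, (short n ((allRun M (tests l n)).val A₀ x) = true ↔
      bK.eval (z x).length ≤ n) := by
    intro x hx
    rw [hval x hx]
    show decide (bK.eval (z x).length ≤ n) = true ↔ _
    rw [decide_eq_true_eq]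
  by_cases hc : 2 ^ l ≤ 2 * Sh.card
  · -- many short outputs
    have hadd : addS l n ((allRun M (tests l n)).val A₀) = (strs n).toFinset := by
      unfold addS
      rw [if_pos]
      exact hc
    have hjl : 2 * 2 ^ j ≤ 2 ^ l := by
      rw [← pow_succ']
      exact Nat.pow_le_pow_right (by norm_num) (by omega)
    refine (bound_one (K := K) hln hn1 hQn ht (J := Sh)
      (fun x hx => hlen x (Finset.mem_filter.1 hx).1) (fun x => decide (z x ∈ DS A₀)) (by omega)
      (Z := WorkA M (tests l n)) (fun A hA hL x hx => ?_)).trans ?_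
    · obtain ⟨hxT, hxs⟩ := Finset.mem_filter.1 hx
      rw [hW A hA hL x hxT, decide_eq_true_eq]
      refine dS_congr fun y hy => ?_
      have h1 := (ext_leaf hL).2.2.2
      rw [hadd] at h1
      refine h1 y ?_
      rw [List.mem_toFinset, mem_strs]
      exact hy.trans ((hsh x hxT).1 hxs)
    · nlinarith [mul_nonneg hK0 hp]
  -- many long outputs
  have hadd : addS l n ((allRun M (tests l n)).val A₀) = ∅ := by
    unfold addS
    rw [if_neg]
    exact hc
  set Lo := (tests l n).filter (fun x => ¬ short n ((allRun M (tests l n)).val A₀ x) = true)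
    with hLo
  have hLoc : 2 ^ l < 2 * Lo.card := by
    have h1 := Finset.card_filter_add_card_filter_not (s := tests l n)
      (fun x => short n ((allRun M (tests l n)).val A₀ x) = true)
    rw [card_tests] at h1
    have h2 : Sh.card + Lo.card = 2 ^ l := h1
    omega
  have hLoT : ∀ x ∈ Lo, x ∈ tests l n := fun x hx => (Finset.mem_filter.1 hx).1
  have hLoz : ∀ x ∈ Lo, 8 * l + 4 ≤ (z x).length := by
    intro x hx
    obtain ⟨hxT, hxs⟩ := Finset.mem_filter.1 hx
    rw [hsh x hxT] at hxs
    by_contra hcon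
    exact hxs ((eval_mono bK (show (z x).length ≤ 8 * l + 3 by omega)).trans hb)
  by_cases hd : 2 ^ j ≤ (Lo.image fun x => uOf (z x)).card
  · -- many different strings
    have h1 : ∀ u ∈ Lo.image fun x => uOf (z x), ∃ x ∈ Lo, uOf (z x) = u := by
      intro u hu
      obtain ⟨x, hx, rfl⟩ := Finset.mem_image.1 hu
      exact ⟨x, hx, rfl⟩
    choose! g hg1 hg2 using h1
    have h2 : ((Lo.image fun x => uOf (z x)).image g).card =
        (Lo.image fun x => uOf (z x)).card := by
      apply Finset.card_image_of_injOn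
      intro u hu u' hu' h
      have h3 := hg2 u hu
      have h4 := hg2 u' hu'
      have h5 : g u = g u' := h
      rw [← h3, h5, h4]
    refine (bound_two (K := K) hln hn1 hl1 hQ hadd ht
      (J := (Lo.image fun x => uOf (z x)).image g) (fun x hx => ?_) z (fun x hx => ?_)
      (fun x hx x' hx' h => ?_) (by omega) (Z := WorkA M (tests l n))
      (fun A hA hL x hx => ?_)).trans ?_
    · obtain ⟨u, hu, rfl⟩ := Finset.mem_image.1 hx
      exact hlen _ (hLoT _ (hg1 u hu))
    · obtain ⟨u, hu, rfl⟩ := Finset.mem_image.1 hx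
      exact hLoz _ (hg1 u hu)
    · obtain ⟨u, hu, rfl⟩ := Finset.mem_image.1 hx
      obtain ⟨u', hu', rfl⟩ := Finset.mem_image.1 hx'
      rw [hg2 u hu, hg2 u' hu'] at h
      rw [h]
    · obtain ⟨u, hu, rfl⟩ := Finset.mem_image.1 hx
      exact hW A hA hL _ (hLoT _ (hg1 u hu))
    · nlinarith [mul_nonneg hK0 hp]
  · -- one output at many tests
    have h1 : (Lo.image z).card ≤ 27 * 2 ^ j := by
      have h2 : (Lo.image z).card ≤ ((Lo.image fun x => uOf (z x)) ×ˢ
          (Finset.univ : Finset (Option Bool × Option Bool × Option Bool))).card := by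
        apply Finset.card_le_card_of_injOn (fun v => (uOf v, key v))
        · intro v hv
          obtain ⟨x, hx, rfl⟩ := Finset.mem_image.1 (Finset.mem_coe.1 hv)
          rw [Finset.mem_coe, Finset.mem_product]
          exact ⟨Finset.mem_image.2 ⟨x, hx, rfl⟩, Finset.mem_univ _⟩
        · intro v hv v' hv' h
          obtain ⟨x, hx, rfl⟩ := Finset.mem_image.1 (Finset.mem_coe.1 hv)
          obtain ⟨x', hx', rfl⟩ := Finset.mem_image.1 (Finset.mem_coe.1 hv')
          have h3 := hLoz x hx
          have h4 := hLoz x' hx'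
          rw [Prod.mk.injEq] at h
          exact eq_of_key (by omega) (by omega) h.2 h.1
      have h5 : (Finset.univ : Finset (Option Bool × Option Bool × Option Bool)).card = 27 := by
        decide
      rw [Finset.card_product, h5] at h2
      omega
    have hne : (Lo.image z).Nonempty := by
      rw [Finset.image_nonempty]
      exact Finset.card_pos.1 (by omega)
    obtain ⟨z₀, hz₀, hfib⟩ := Finset.exists_le_card_fiber_of_mul_le_card_of_maps_to
      (s := Lo) (t := Lo.image z) (f := z) (n := 2 ^ j)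
      (fun x hx => Finset.mem_image.2 ⟨x, hx, rfl⟩) hne (by
        have h6 : 2 * (27 * 2 ^ j * 2 ^ j) ≤ 2 ^ l := by
          calc 2 * (27 * 2 ^ j * 2 ^ j) ≤ 2 ^ 6 * (2 ^ j * 2 ^ j) := by
                norm_num
                nlinarith [Nat.pos_of_ne_zero (show (2 ^ j * 2 ^ j : ℕ) ≠ 0 by positivity)]
            _ = 2 ^ (6 + (j + j)) := by rw [← pow_add, ← pow_add]
            _ ≤ 2 ^ l := Nat.pow_le_pow_right (by norm_num) (by omega)
        have h7 : (Lo.image z).card * 2 ^ j ≤ 27 * 2 ^ j * 2 ^ j := Nat.mul_le_mul_right _ h1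
        omega)
    have key2 : ∀ s : Bool, prob ((WorkA M (tests l n) ∩ {A | z₀ ∈ DS A ↔ s = true}) ∩
        Leaf (E M l n) A₀) ≤ (15 / 16) ^ K * prob (Leaf (E M l n) A₀) := by
      intro s
      refine bound_one (K := K) hln hn1 hQn ht (J := Lo.filter fun x => z x = z₀)
        (fun x hx => hlen x (hLoT x (Finset.mem_filter.1 hx).1)) (fun _ => s) (by omega)
        (fun A hA hL x hx => ?_)
      obtain ⟨hxL, hxz⟩ := Finset.mem_filter.1 hx
      rw [hW A hA.1 hL x (hLoT x hxL), hxz]
      exact hA.2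
    have h8 : WorkA M (tests l n) ∩ Leaf (E M l n) A₀ ⊆
        ((WorkA M (tests l n) ∩ {A | z₀ ∈ DS A ↔ true = true}) ∩ Leaf (E M l n) A₀) ∪
        ((WorkA M (tests l n) ∩ {A | z₀ ∈ DS A ↔ false = true}) ∩ Leaf (E M l n) A₀) := by
      rintro A ⟨hA, hL⟩
      by_cases h9 : z₀ ∈ DS A
      · exact Or.inl ⟨⟨hA, by simpa using h9⟩, hL⟩
      · exact Or.inr ⟨⟨hA, by simpa using h9⟩, hL⟩
    refine (M2.prob_mono h8).trans ((M2.prob_union_le _ _).trans ?_)
    have h10 := key2 true
    have h11 := key2 false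
    linarith

end Pool.Agent.TH771.CK
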