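import Pool.Agent.TH771.CK.Asm
import Pool.Agent.TH138.OW.NullE
import Pool.Agent.W900.CH.PLev

/-!
# The set of the oracles with a reduction with one question is a null set of the gauge
-/

set_option autoImplicit false

namespace Pool.Agent.TH771.CK

open MeasureTheory Filter Pool.Agent.NPC Pool.Agent.H628R3.RO Pool.Agent.H673R2.OneOne
open Pool.Agent.H673R2.OneTT
open Pool.Agent.H620R2.Gauge (Null Extends pre str idx idx_lt str_idx)
open Pool.Agent.W900.BC (Dep)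

theorem nat_est {a N j1 : ℕ} (h : (j1 + 2) ^ (a + 1) ≤ Nat.log 2 N) :
    ∃ j, j1 ≤ j ∧ (j + 2) ^ (a + 1) ≤ Nat.log 2 N ∧ Nat.log 2 N + 1 ≤ (j + 3) ^ (a + 1) := by
  have h0 : ∀ i : ℕ, i + 2 ≤ (i + 2) ^ (a + 1) := fun i => Nat.le_self_pow (by omega) _
  have h1 : j1 ≤ Nat.log 2 N := by
    have := h0 j1
    omega
  refine ⟨Nat.findGreatest (fun j => (j + 2) ^ (a + 1) ≤ Nat.log 2 N) (Nat.log 2 N),
    Nat.le_findGreatest h1 h, Nat.findGreatest_spec (P := fun j =>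
      (j + 2) ^ (a + 1) ≤ Nat.log 2 N) h1 h, ?_⟩
  set j := Nat.findGreatest (fun j => (j + 2) ^ (a + 1) ≤ Nat.log 2 N) (Nat.log 2 N) with hj
  by_contra hcon
  have h2 : (j + 1 + 2) ^ (a + 1) ≤ Nat.log 2 N := by
    have : j + 1 + 2 = j + 3 := by ring
    rw [this]
    omega
  have h3 : j + 1 ≤ Nat.log 2 N := by
    have := h0 (j + 1)
    omega
  have h4 := Nat.le_findGreatest (P := fun j => (j + 2) ^ (a + 1) ≤ Nat.log 2 N) h3 h2
  rw [← hj] at h4
  omega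

theorem real_est {f : ℕ → ℝ} (hf : ∀ ε : ℝ, 0 < ε → ∃ᶠ N : ℕ in atTop,
    f N ≤ 2 ^ (Real.logb 2 N) ^ ε) (a j0 : ℕ) {δ : ℝ} (hδ : 0 < δ) :
    ∃ N j : ℕ, j0 ≤ j ∧ (j + 2) ^ a ≤ Nat.log 2 N ∧ N ≠ 0 ∧
      3 * (15 / 16 : ℝ) ^ 2 ^ (j - 1) * 2 ^ f N ≤ δ := by
  obtain ⟨m, hm⟩ := exists_pow_lt_of_lt_one (show (0 : ℝ) < δ / 3 by positivity)
    (show (1 / 2 : ℝ) < 1 by norm_num)
  set j1 := j0 + m + 12 with hj1
  set ε : ℝ := 1 / (2 * (a + 1 : ℕ)) with hε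
  have hε0 : 0 < ε := by positivity
  have hfr := ((hf ε hε0).and_eventually
    (eventually_ge_atTop (2 ^ ((j1 + 2) ^ (a + 1))))).exists
  obtain ⟨N, h1, h2⟩ := hfr
  have hN0 : N ≠ 0 := by
    have : 0 < 2 ^ ((j1 + 2) ^ (a + 1)) := by positivity
    omega
  have h3 : (j1 + 2) ^ (a + 1) ≤ Nat.log 2 N := Nat.le_log_of_pow_le (by norm_num) h2
  obtain ⟨j, h4, h5, h6⟩ := nat_est h3
  have h7 : (j + 2) ^ a ≤ Nat.log 2 N :=
    (Nat.pow_le_pow_right (by omega) (by omega)).trans h5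
  refine ⟨N, j, by omega, h7, hN0, ?_⟩
  have hN1 : (1 : ℝ) ≤ N := by exact_mod_cast Nat.one_le_iff_ne_zero.2 hN0
  have h8 : Real.logb 2 N ≤ ((j : ℝ) + 3) ^ (a + 1) := by
    have h9 : (N : ℝ) ≤ 2 ^ (Nat.log 2 N + 1) := by
      exact_mod_cast (Nat.lt_pow_succ_log_self (by norm_num) N).le
    have h10 := Real.logb_le_logb_of_le (b := 2) (by norm_num) (by positivity) h9
    rw [Real.logb_pow, Real.logb_self_eq_one (by norm_num), mul_one] at h10
    have h11 : ((Nat.log 2 N + 1 : ℕ) : ℝ) ≤ (((j + 3) ^ (a + 1) : ℕ) : ℝ) := by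
      exact_mod_cast h6
    push_cast at h10 h11
    linarith
  have h12 : (Real.logb 2 N) ^ ε ≤ (j : ℝ) - 6 := by
    have h13 : (0 : ℝ) ≤ Real.logb 2 N := Real.logb_nonneg (by norm_num) hN1
    have h14 := Real.rpow_le_rpow h13 h8 hε0.le
    refine h14.trans ?_
    rw [← Real.rpow_natCast, ← Real.rpow_mul (by positivity)]
    have h15 : ((a + 1 : ℕ) : ℝ) * ε = 1 / 2 := by
      rw [hε]
      have : ((a + 1 : ℕ) : ℝ) ≠ 0 := by positivity
      field_simp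
    rw [h15, ← Real.sqrt_eq_rpow]
    have h16 : (12 : ℝ) ≤ j := by exact_mod_cast (show 12 ≤ j by omega)
    rw [Real.sqrt_le_left (by linarith)]
    nlinarith
  have h17 : f N ≤ ((2 ^ (j - 6) : ℕ) : ℝ) := by
    refine h1.trans ?_
    push_cast
    rw [← Real.rpow_natCast, Nat.cast_sub (show 6 ≤ j by omega)]
    push_cast
    exact Real.rpow_le_rpow_of_exponent_le (by norm_num) h12
  have h18 : (2 : ℝ) ^ f N ≤ 2 ^ (2 ^ (j - 6) : ℕ) := by
    rw [← Real.rpow_natCast]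
    exact Real.rpow_le_rpow_of_exponent_le (by norm_num) h17
  have h19 : (15 / 16 : ℝ) ^ 2 ^ (j - 1) ≤ (1 / 2) ^ (2 ^ (j - 6) + 2 ^ (j - 6)) := by
    have h20 : 2 ^ (j - 1) = 16 * (2 ^ (j - 6) + 2 ^ (j - 6)) := by
      obtain ⟨i, rfl⟩ : ∃ i, j = i + 6 := ⟨j - 6, by omega⟩
      rw [show i + 6 - 1 = i + 5 by omega, show i + 6 - 6 = i by omega, pow_add]
      ring
    rw [h20, pow_mul]
    apply pow_le_pow_left₀ (by positivity)
    norm_num
  have h21 : (1 / 2 : ℝ) ^ 2 ^ (j - 6) ≤ (1 / 2) ^ m := by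
    apply pow_le_pow_of_le_one (by norm_num) (by norm_num)
    have : m ≤ j - 6 := by omega
    exact this.trans (Nat.lt_two_pow_self).le
  have h22 : (1 / 2 : ℝ) ^ (2 ^ (j - 6) + 2 ^ (j - 6)) * 2 ^ (2 ^ (j - 6) : ℕ) =
      (1 / 2) ^ 2 ^ (j - 6) := by
    rw [pow_add, mul_assoc, ← mul_pow]
    norm_num
  calc 3 * (15 / 16 : ℝ) ^ 2 ^ (j - 1) * 2 ^ f N
      ≤ 3 * (1 / 2) ^ (2 ^ (j - 6) + 2 ^ (j - 6)) * 2 ^ (2 ^ (j - 6) : ℕ) := by
        apply mul_le_mul _ h18 (by positivity) (by positivity)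
        exact mul_le_mul_of_nonneg_left h19 (by norm_num)
    _ = 3 * (1 / 2) ^ 2 ^ (j - 6) := by rw [mul_assoc, h22]
    _ ≤ 3 * (1 / 2) ^ m := mul_le_mul_of_nonneg_left h21 (by norm_num)
    _ ≤ δ := by linarith

theorem dep_of_loc {L N : ℕ} {Z : Set Oracle} (hZ : Loc {x | x.length ≤ L} Z)
    (h : 2 ^ (L + 1) ≤ N) : Dep N Z := by
  intro A B hAB hA
  refine (hZ A B fun x hx => ?_).1 hA
  have h1 := idx_lt x
  have hx' : x.length ≤ L := hx
  have h2 : 2 ^ (x.length + 1) ≤ 2 ^ (L + 1) := Nat.pow_le_pow_right (by norm_num) (by omega)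
  have h3 := congrFun hAB ⟨idx x, by omega⟩
  unfold pre at h3
  simpa only [str_idx] using h3

/-- the oracles relative to which the algorithm reduces the random set to the set with signs -/
def RX (M : Alg) : Set Oracle :=
  {A | ∀ x, ∃ z, M.out A x = some z ∧ (x ∈ Hs 5 A ↔ z ∈ DS A)}

theorem null_RX (f : ℕ → ℝ) (hf : ∀ ε : ℝ, 0 < ε → ∃ᶠ N : ℕ in atTop,
    f N ≤ 2 ^ (Real.logb 2 N) ^ ε) (M : Alg) : Null f (RX M) := by
  intro δ hδ
  set Q : Polynomial ℕ := bK.comp (32 * Polynomial.X + 3) + 32 * Polynomial.X with hQ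
  have hQe : ∀ j, Q.eval j = bK.eval (32 * j + 3) + 32 * j := by
    intro j
    rw [hQ]
    simp only [Polynomial.eval_add, Polynomial.eval_comp, Polynomial.eval_mul,
      Polynomial.eval_ofNat, Polynomial.eval_X]
  obtain ⟨a, ha⟩ := Pool.Agent.W900.PS.poly_le2 ((PW M).comp Q + 1)
  obtain ⟨n0, h0⟩ := mul_poly_le_two_pow' (M.p.comp Q) 2
  obtain ⟨N, j, h1, h2, hN0, h3⟩ := real_est hf a (max n0 3) hδ
  have hj3 : 3 ≤ j := (le_max_right _ _).trans h1
  have hjn : n0 ≤ j := (le_max_left _ _).trans h1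
  have hP : (PW M).eval (Q.eval j) + 1 ≤ Nat.log 2 N := by
    have := ha j
    simp only [Polynomial.eval_add, Polynomial.eval_comp, Polynomial.eval_one] at this
    omega
  have hln : 8 * (4 * j) ≤ Q.eval j := by
    rw [hQe]
    omega
  have hpow : 2 ^ ((PW M).eval (Q.eval j) + 1) ≤ N :=
    (Nat.pow_le_pow_right (by norm_num) hP).trans (Nat.pow_log_le_self 2 hN0)
  have hdep : Dep N (WorkA M (tests (4 * j) (Q.eval j))) :=
    dep_of_loc (loc_workA (by omega)) hpow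
  have hpr := work_prob (M := M) (l := 4 * j) (n := Q.eval j) hj3 rfl hln (by
    rw [hQe, show 8 * (4 * j) + 3 = 32 * j + 3 by ring]
    omega) (by
    have h4 := h0 j hjn
    rw [Polynomial.eval_comp] at h4
    calc 2 * (2 ^ (4 * j) * M.p.eval (Q.eval j)) = 2 ^ (4 * j) * (2 * M.p.eval (Q.eval j)) := by
          ring
      _ ≤ 2 ^ (4 * j) * 2 ^ j := Nat.mul_le_mul_left _ h4
      _ = 2 ^ (5 * j) := by rw [← pow_add]; congr 1; ring
      _ ≤ 2 ^ (8 * (4 * j)) := Nat.pow_le_pow_right (by norm_num) (by omega))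
  haveI : IsProbabilityMeasure randomOracle := isProbabilityMeasure_randomOracle_aux
  have hle : randomOracle (WorkA M (tests (4 * j) (Q.eval j))) * ENNReal.ofReal (2 ^ f N) ≤
      ENNReal.ofReal δ := by
    have h5 : randomOracle (WorkA M (tests (4 * j) (Q.eval j))) =
        ENNReal.ofReal (prob (WorkA M (tests (4 * j) (Q.eval j)))) := by
      unfold prob
      rw [Measure.real, ENNReal.ofReal_toReal (measure_ne_top _ _)]
    have h6 : 0 ≤ prob (WorkA M (tests (4 * j) (Q.eval j))) := measureReal_nonneg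
    rw [h5, ← ENNReal.ofReal_mul h6]
    apply ENNReal.ofReal_le_ofReal
    refine (mul_le_mul_of_nonneg_right hpr (by positivity)).trans h3
  obtain ⟨S, hS1, hS2⟩ := Pool.Agent.TH138.OW.cover_of_meas hdep f _ hle
  exact ⟨S, fun A hA => hS1 A fun x _ => hA x, hS2⟩

/-- **Relative to no oracle which is near a typical oracle the random set is reducible to the set
with signs.** -/
theorem ae_far_RX {g : ℕ → ℝ} (hg : ∀ ε : ℝ, 0 < ε → ∃ᶠ n : ℕ in atTop, g n ≤ 2 ^ (n : ℝ) ^ ε) :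
    ∀ᵐ O ∂randomOracle, ∀ A, Pool.Agent.W900.CH.Close g O A → ∀ M : Alg, A ∉ RX M := by
  have h1 := Pool.Agent.W900.CH.ae_far_P (S := ⋃ M : Alg, RX M) (fun f hf =>
    Pool.Agent.H620R2.Gauge.null_iUnion _ fun M => null_RX f hf M) hg
  filter_upwards [h1] with O hO A hA M hM
  exact hO A hA (Set.mem_iUnion.2 ⟨M, hM⟩)

end Pool.Agent.TH771.CK
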