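import Pool.Agent.TH771.CK.Null
import Pool.Agent.H673R2.OneTT.Sep5

/-!
# Reductions with one question in normal form
-/

set_option autoImplicit false

namespace Pool.Agent.TH771.CK

open MeasureTheory Filter Pool.Agent.NPC Pool.Agent.H628R3.RO Pool.Agent.H673R2.OneOne
open Pool.Agent.H673R2.OneTT

/-- the normal form of a reduction with one question to a set without the empty string -/
def nf2 (Q H : List Bool → List Bool) (x : List Bool) : List Bool :=
  if H (pairBits x [true]) = [true] then
    (if H (pairBits x [false]) = [true] then [false] else true :: Q x)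
  else (if H (pairBits x [false]) = [true] then false :: Q x else [true])

theorem isFP_nf2 {A : Oracle} {Q H : List Bool → List Bool} (hQ : IsFP A Q)
    (hH : IsFP A H) : IsFP A (nf2 Q H) := by
  have h1 : IsFP A (fun x => H (pairBits x [true])) :=
    IsFP.comp hH (IsFP.of_poly (H622R2.poly_pairBits Poly.id (NPC.Poly.const _)))
  have h2 : IsFP A (fun x => H (pairBits x [false])) :=
    IsFP.comp hH (IsFP.of_poly (H622R2.poly_pairBits Poly.id (NPC.Poly.const _)))
  have h3 := IsFP.pair (IsFP.pair h1 h2) hQ
  have h4 : Poly (fun t : List Bool => if (unpair (unpair t).1).1 = [true] then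
      (if (unpair (unpair t).1).2 = [true] then [false] else true :: (unpair t).2)
      else (if (unpair (unpair t).1).2 = [true] then false :: (unpair t).2 else [true])) := by
    have g1 : Poly (fun t : List Bool => unpair (unpair t).1) :=
      poly_unpair.comp (Poly.fst poly_unpair)
    have g2 : Poly (fun t : List Bool => (unpair t).2) := Poly.snd poly_unpair
    exact Poly.ite (Poly.decide_eq (Poly.fst g1) (NPC.Poly.const _))
      (Poly.ite (Poly.decide_eq (Poly.snd g1) (NPC.Poly.const _)) (NPC.Poly.const _)
        (Poly.cons (NPC.Poly.const true) g2))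
      (Poly.ite (Poly.decide_eq (Poly.snd g1) (NPC.Poly.const _))
        (Poly.cons (NPC.Poly.const false) g2) (NPC.Poly.const _))
  have h5 := IsFP.comp (IsFP.of_poly (A := A) h4) h3
  simp only [unpair_pairBits] at h5
  exact h5

theorem mem_DS_cons {A : Oracle} {b : Bool} {v : List Bool} :
    b :: v ∈ DS A ↔ (v ∈ DD A ↔ b = true) := by
  unfold DS
  simp only [Set.mem_ofPred_eq]
  constructor
  · rintro ⟨b', v', h, h'⟩
    obtain ⟨rfl, rfl⟩ := List.cons.inj h
    exact h'
  · intro h
    exact ⟨b, v, rfl, h⟩

theorem nil_notMem_DD (A : Oracle) : ([] : List Bool) ∉ DD A := by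
  unfold DD
  simp

theorem nf2_spec {A : Oracle} {L : Set (List Bool)} {Q H : List Bool → List Bool}
    (hR : ∀ x, x ∈ L ↔ H (pairBits x (chi (DD A) (Q x))) = [true]) (x : List Bool) :
    x ∈ L ↔ nf2 Q H x ∈ DS A := by
  have h0 := nil_notMem_DD A
  rw [hR]
  unfold nf2 chi
  by_cases hq : Q x ∈ DD A <;> by_cases ht : H (pairBits x [true]) = [true] <;>
    by_cases hf : H (pairBits x [false]) = [true] <;>
    simp [hq, ht, hf, mem_DS_cons, h0]

/-- **There is no reduction with one question when no algorithm reduces to the set with signs.** -/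
theorem not_red1tt {A : Oracle} (h : ∀ M : Alg, A ∉ RX M) : ¬ Red1tt A (Hs 5 A) (DD A) := by
  rintro ⟨Q, H, hQ, hH, hR⟩
  obtain ⟨M, hM⟩ := isFP_nf2 hQ hH
  exact h M fun x => ⟨_, hM x, nf2_spec hR x⟩

/-- a many-one reduction is a reduction with one question -/
theorem Red1tt.of_red {A : Oracle} {L B : Set (List Bool)} (h : Red A L B) : Red1tt A L B := by
  obtain ⟨F, hF, h1⟩ := h
  refine ⟨F, fun y => (unpair y).2, hF, IsFP.of_poly (Poly.snd poly_unpair), fun x => ?_⟩
  rw [h1]
  simp only [unpair_pairBits]
  unfold chi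
  simp

end Pool.Agent.TH771.CK
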