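import Pool.Agent.H673R2.OneTT.Sep2

/-!
# A query algorithm seldom finds many hits
-/

set_option autoImplicit false

namespace Pool.Agent.TH771.CK

open MeasureTheory Pool.Agent.NPC Pool.Agent.H628R3.RO Pool.Agent.H673R2.OneOne
open Pool.Agent.H673R2.OneTT

/-- the positions of a set of candidates -/
def sp (K : Finset Cand) : Finset (List Bool) := K.biUnion fun κ => spots (mm κ) κ

theorem mem_sp {K : Finset Cand} {x : List Bool} : x ∈ sp K ↔ ∃ κ ∈ K, x ∈ spots (mm κ) κ := by
  unfold sp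
  rw [Finset.mem_biUnion]

theorem card_sp {K : Finset Cand} {r : ℕ} (h : ∀ κ ∈ K, r ≤ mm κ) : r * K.card ≤ (sp K).card := by
  unfold sp
  rw [Finset.card_biUnion]
  · rw [mul_comm, ← smul_eq_mul]
    exact Finset.card_nsmul_le_sum _ _ _ fun κ hκ => by
      rw [M2.card_spots]
      exact h κ hκ
  · intro κ _ κ' _ hne
    rw [Function.onFun, Finset.disjoint_left]
    intro x hx
    exact notMem_spots_of_ne hne hx

theorem plant_sp {κ : Cand} {K : Finset Cand} (hκ : κ ∈ K) (A : Oracle) :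
    plant (sp K) A = plant (sp (K.erase κ)) (plant (spots (mm κ) κ) A) := by
  funext x
  unfold plant
  by_cases h1 : x ∈ spots (mm κ) κ
  · have h2 : x ∈ sp K := mem_sp.2 ⟨κ, hκ, h1⟩
    simp [h1, h2]
  · by_cases h2 : x ∈ sp K
    · obtain ⟨κ', h3, h4⟩ := mem_sp.1 h2
      have h5 : κ' ≠ κ := fun h => h1 (h ▸ h4)
      have h6 : x ∈ sp (K.erase κ) := mem_sp.2 ⟨κ', Finset.mem_erase.2 ⟨h5, h3⟩, h4⟩
      simp [h2, h6]
    · have h6 : x ∉ sp (K.erase κ) := fun h => by
        obtain ⟨κ', h3, h4⟩ := mem_sp.1 h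
        exact h2 (mem_sp.2 ⟨κ', Finset.mem_of_mem_erase h3, h4⟩)
      simp [h1, h2, h6]

variable {β : Type} (G : QA β)

open Classical in
/-- The number of the sets of `t` candidates that are all touched once they have been planted. -/
theorem card_touch {D : ℕ} (hD : ∀ A, (G.qs A).card ≤ D) (U : Finset Cand) (t : ℕ) (A : Oracle) :
    ((U.powersetCard t).filter (fun K => ∀ κ ∈ K, Tc (G.qs (plant (sp K) A)) κ)).card ≤ D ^ t := by
  induction t generalizing A with
  | zero =>
    rw [pow_zero]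
    refine (Finset.card_filter_le _ _).trans ?_
    rw [Finset.card_powersetCard]
    simp
  | succ t ih =>
    set T : Finset Cand := U.filter (fun κ => Tc (G.qs A) κ) with hT
    have hTc : T.card ≤ D := (card_Tc (G.qs A) U).trans (hD A)
    have h1 : (U.powersetCard (t + 1)).filter (fun K => ∀ κ ∈ K, Tc (G.qs (plant (sp K) A)) κ) ⊆
        T.biUnion fun κ => ((U.powersetCard t).filter (fun K => ∀ κ' ∈ K,
          Tc (G.qs (plant (sp K) (plant (spots (mm κ) κ) A))) κ')).image (insert κ) := by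
      intro K hK
      rw [Finset.mem_filter, Finset.mem_powersetCard] at hK
      obtain ⟨⟨hKU, hKc⟩, hK⟩ := hK
      obtain ⟨κ, hκ, hκT⟩ : ∃ κ ∈ K, Tc (G.qs A) κ := by
        by_contra hcon
        push Not at hcon
        have h2 : (G.qs (plant (sp K) A)) = G.qs A := by
          refine (G.loc A _ fun x hx => ?_).2
          have h3 : x ∉ sp K := fun h => by
            obtain ⟨κ, h4, h5⟩ := mem_sp.1 h
            exact hcon κ h4 ⟨x, hx, h5⟩
          unfold plant
          rw [if_neg h3]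
        obtain ⟨κ, hκ⟩ : K.Nonempty := Finset.card_pos.1 (by omega)
        have h3 := hK κ hκ
        rw [h2] at h3
        exact hcon κ hκ h3
      rw [Finset.mem_biUnion]
      refine ⟨κ, Finset.mem_filter.2 ⟨hKU hκ, hκT⟩, ?_⟩
      rw [Finset.mem_image]
      refine ⟨K.erase κ, ?_, Finset.insert_erase hκ⟩
      rw [Finset.mem_filter, Finset.mem_powersetCard]
      refine ⟨⟨(Finset.erase_subset _ _).trans hKU, ?_⟩, fun κ' hκ' => ?_⟩
      · rw [Finset.card_erase_of_mem hκ]
        omega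
      · rw [← plant_sp hκ]
        exact hK κ' (Finset.mem_of_mem_erase hκ')
    refine (Finset.card_le_card h1).trans (Finset.card_biUnion_le.trans ?_)
    refine (Finset.sum_le_sum fun κ _ => Finset.card_image_le.trans
      (ih (plant (spots (mm κ) κ) A))).trans ?_
    rw [Finset.sum_const, smul_eq_mul, pow_succ, mul_comm]
    exact Nat.mul_le_mul_left _ hTc

/-- Many of the touched candidates are hits. -/
def Many (U : Finset Cand) (t : ℕ) : Set Oracle :=
  {A | ∃ K ⊆ U, K.card = t ∧ ∀ κ ∈ K, Tc (G.qs A) κ ∧ Hit (mm κ) κ A}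

open Classical in
/-- **A query algorithm seldom finds many hits.** -/
theorem prob_many {D N r : ℕ} (hD : ∀ A, (G.qs A).card ≤ D)
    (hN : ∀ A, ∀ x ∈ G.qs A, x.length ≤ N) {U : Finset Cand} (hr : ∀ κ ∈ U, r ≤ mm κ) (t : ℕ) :
    prob (Many G U t) ≤ (D : ℝ) ^ t * (1 / 2) ^ (r * t) := by
  have hmeas : ∀ K : Finset Cand, MeasurableSet {A : Oracle | ∀ κ ∈ K, Tc (G.qs A) κ} := by
    intro K
    exact measurableSet_of_loc (finite_short' N)
      (QA.loc_val G hN (fun _ Q => ∀ κ ∈ K, Tc Q κ))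
  have h1 : Many G U t ⊆ ⋃ K ∈ U.powersetCard t, ({A | ∀ x ∈ sp K, A x = true} ∩
      {A | ∀ κ ∈ K, Tc (G.qs A) κ}) := by
    rintro A ⟨K, hKU, hKc, hK⟩
    simp only [Set.mem_iUnion]
    refine ⟨K, Finset.mem_powersetCard.2 ⟨hKU, hKc⟩, fun x hx => ?_, fun κ hκ => (hK κ hκ).1⟩
    obtain ⟨κ, hκ, hx⟩ := mem_sp.1 hx
    exact M2.hit_iff.1 (hK κ hκ).2 x hx
  refine (M2.prob_mono h1).trans ((prob_biUnion_le' _ _).trans ?_)
  have h2 : ∀ K ∈ U.powersetCard t, prob ({A | ∀ x ∈ sp K, A x = true} ∩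
      {A | ∀ κ ∈ K, Tc (G.qs A) κ}) ≤ (1 / 2) ^ (r * t) *
      prob (plant (sp K) ⁻¹' {A | ∀ κ ∈ K, Tc (G.qs A) κ}) := by
    intro K hK
    rw [Finset.mem_powersetCard] at hK
    rw [prob_plant (hmeas K)]
    apply mul_le_mul_of_nonneg_right _ (M2.prob_nonneg _)
    apply pow_le_pow_of_le_one (by norm_num) (by norm_num)
    rw [← hK.2]
    exact card_sp fun κ hκ => hr κ (hK.1 hκ)
  refine (Finset.sum_le_sum h2).trans ?_
  rw [← Finset.mul_sum, mul_comm]
  apply mul_le_mul_of_nonneg_right _ (by positivity)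
  apply sum_prob_le_card _ _ (fun K _ => (M2.measurable_plant _) (hmeas K))
  intro A
  have h3 : ((U.powersetCard t).filter (fun K => A ∈ plant (sp K) ⁻¹'
      {A | ∀ κ ∈ K, Tc (G.qs A) κ})).card ≤ D ^ t := by
    refine (Finset.card_le_card fun K hK => ?_).trans (card_touch G hD U t A)
    rw [Finset.mem_filter] at hK ⊢
    exact hK
  exact_mod_cast h3

end Pool.Agent.TH771.CK
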